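import Pool.Agent.U167.SA.Stm4
import Pool.Agent.U692.SA.UNI

/-!
Project SA, package UNIW: an arc around a box in a half-plane with a rough boundary.
Adapted from `Pool.Agent.U692.SA.UNI` (helper692).
-/

set_option autoImplicit false
set_option maxHeartbeats 4000000

namespace Pool.Agent.U919.SA

open H974 Finset Filter Topology Pool.Agent.U167.SA
open Pool.Agent.U692.SA (stay lift vseg hseg last_edge)

/-- Follow a path until it leaves the set `D` of vertices. -/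
theorem stop_out {G : Set Edg} {D : Set Vtx} {p r : Vtx} (h : Reach G p r) (hp : p ∈ D)
    (hr : r ∉ D) :
    ∃ w w', w ∈ D ∧ w' ∉ D ∧ Reach (G ∩ {e | src e ∈ D ∧ tgt e ∈ D}) p w ∧ Adj G w w' := by
  have key : ∀ w, Reach G p w →
      (∃ w w', w ∈ D ∧ w' ∉ D ∧ Reach (G ∩ {e | src e ∈ D ∧ tgt e ∈ D}) p w ∧ Adj G w w') ∨
      (w ∈ D ∧ Reach (G ∩ {e | src e ∈ D ∧ tgt e ∈ D}) p w) := by
    intro w hw
    induction hw with
    | refl => exact Or.inr ⟨hp, Reach.refl _ _⟩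
    | @tail w w' _ hs ih =>
      rcases ih with ih | ⟨ih1, ih2⟩
      · exact Or.inl ih
      · by_cases hD : w' ∈ D
        · right
          obtain ⟨e, he, hc⟩ := hs
          refine ⟨hD, ih2.trans (Adj.reach ⟨e, ⟨he, ?_⟩, hc⟩)⟩
          rcases hc with ⟨h1, h2⟩ | ⟨h1, h2⟩
          · exact ⟨by rw [h1]; exact ih1, by rw [h2]; exact hD⟩
          · exact ⟨by rw [h1]; exact hD, by rw [h2]; exact ih1⟩
        · exact Or.inl ⟨w, w', ih1, hD, ih2, hs⟩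
  rcases key r h with h1 | ⟨h1, h2⟩
  · exact h1
  · exact absurd h1 hr

/-- the vertices of the rough half-plane -/
def Vw (f : ℤ → ℤ) : Set Vtx := {v | f (ht v) ≤ col v}

theorem mem_Vw {f : ℤ → ℤ} {x y : ℤ} : ((x, y) : Vtx) ∈ Vw f ↔ f (x + y) ≤ x - y := Iff.rfl

theorem adj_near {G : Set Edg} {v v' : Vtx} (h : Adj G v v') :
    (v.1 ≤ v'.1 + 1 ∧ v'.1 ≤ v.1 + 1) ∧ v.2 ≤ v'.2 + 1 ∧ v'.2 ≤ v.2 + 1 := by
  obtain ⟨⟨x, y, bo⟩, -, hc⟩ := h
  cases bo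
  · simp only [src_mk, tgt_false] at hc
    rcases hc with ⟨h1, h2⟩ | ⟨h1, h2⟩
    · rw [← h1, ← h2]; simp only; omega
    · rw [← h1, ← h2]; simp only; omega
  · simp only [src_mk, tgt_true] at hc
    rcases hc with ⟨h1, h2⟩ | ⟨h1, h2⟩
    · rw [← h1, ← h2]; simp only; omega
    · rw [← h1, ← h2]; simp only; omega

section out

variable {M : ℤ} {f : ℤ → ℤ} (hM : 0 < M) (hfb : ∀ h, -M ≤ 4 * f h ∧ 4 * f h ≤ M)
  (hl : ∀ h : ℤ, M ≤ |h| → |f (h+1) - f h| ≤ 1)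

include hM hfb hl

theorem up_out {x y : ℤ} (hx : M ≤ x) (h : ((x, y) : Vtx) ∉ Vw f) (k : ℕ) :
    ((x, y + k) : Vtx) ∉ Vw f := by
  induction k with
  | zero => simpa using h
  | succ k ih =>
    rw [mem_Vw] at h ih ⊢
    intro h1
    apply ih
    have h2 := (hfb (x + (y + k))).2
    push_cast at h1
    have h3 : M ≤ x + (y + k) := by
      by_contra h4
      exact ih (by omega)
    have h5 := hl (x + (y + k)) (h3.trans (le_abs_self _))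
    have h6 := (abs_le.1 h5).1
    have h7 : x + (y + ((k : ℤ) + 1)) = x + (y + k) + 1 := by ring
    rw [h7] at h1
    omega

theorem left_out {x y : ℤ} (hy : y ≤ -M) (h : ((x, y) : Vtx) ∉ Vw f) (k : ℕ) :
    ((x - k, y) : Vtx) ∉ Vw f := by
  induction k with
  | zero => simpa using h
  | succ k ih =>
    rw [mem_Vw] at h ih ⊢
    intro h1
    apply ih
    have h2 := (hfb (x - k + y)).2
    push_cast at h1
    have h3 : x - k + y - 1 ≤ -M := by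
      by_contra h4
      exact ih (by omega)
    have h5 := hl (x - k + y - 1) (by
      have := neg_abs_le (x - k + y - 1)
      omega)
    have h6 := (abs_le.1 h5).2
    have h7 : x - ((k : ℤ) + 1) + y = x - k + y - 1 := by ring
    have h8 : x - (k : ℤ) + y - 1 + 1 = x - k + y := by ring
    rw [h7] at h1
    rw [h8] at h6
    omega

theorem up_out' {x y y' : ℤ} (hx : M ≤ x) (h : ((x, y) : Vtx) ∉ Vw f) (hy : y ≤ y') :
    ((x, y') : Vtx) ∉ Vw f := by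
  have h1 := up_out hM hfb hl hx h (y' - y).toNat
  rwa [show y + ((y' - y).toNat : ℤ) = y' by omega] at h1

theorem left_out' {x x' y : ℤ} (hy : y ≤ -M) (h : ((x, y) : Vtx) ∉ Vw f) (hx : x' ≤ x) :
    ((x', y) : Vtx) ∉ Vw f := by
  have h1 := left_out hM hfb hl hy h (x - x').toNat
  rwa [show x - ((x - x').toNat : ℤ) = x' by omega] at h1

end out

/-- an edge of `J` with an endpoint of first coordinate at least `M` is in the half-plane -/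
theorem out_of_big {M : ℤ} {e : Edg} (h : M ≤ (src e).1 ∨ M ≤ (tgt e).1 ∨ (src e).2 ≤ -M ∨
    (tgt e).2 ≤ -M ∨ (src e).1 ≤ -M ∨ (tgt e).1 ≤ -M ∨ M ≤ (src e).2 ∨ M ≤ (tgt e).2) :
    e ∉ RE (-(M-1)) (M-1) (-(M-1)) (M-1) := by
  obtain ⟨x0, y0, bo⟩ := e
  intro hmem
  cases bo
  · simp only [mem_RE_false] at hmem
    simp only [src_mk, tgt_false] at h
    omega
  · simp only [mem_RE_true] at hmem
    simp only [src_mk, tgt_true] at h
    omega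

theorem tbe_sub {M : ℤ} (_ : 0 < M) {e : Edg} (h : e ∈ TBE M (3*M) (-(3*M)) (4*M)) :
    e ∈ RE (-(4*M)) (4*M) (-(4*M)) (4*M) ∧ e ∉ RE (-(M-1)) (M-1) (-(M-1)) (M-1) := by
  obtain ⟨x0, y0, bo⟩ := e
  cases bo
  · simp only [mem_TBE_false, mem_RE_false] at h ⊢; omega
  · simp only [mem_TBE_true, mem_RE_true] at h ⊢; omega

theorem lre_sub {M : ℤ} (_ : 0 < M) {e : Edg} (h : e ∈ LRE (-(4*M)) (3*M) (-(3*M)) (-M)) :
    e ∈ RE (-(4*M)) (4*M) (-(4*M)) (4*M) ∧ e ∉ RE (-(M-1)) (M-1) (-(M-1)) (M-1) := by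
  obtain ⟨x0, y0, bo⟩ := e
  cases bo
  · simp only [mem_LRE_false, mem_RE_false] at h ⊢; omega
  · simp only [mem_LRE_true, mem_RE_true] at h ⊢; omega

/-- the vertical path extended -/
theorem caseV {M : ℤ} {f : ℤ → ℤ} (hM : 0 < M) {J : Set Edg}
    (hJ2 : ∀ e ∈ J, e ∉ RE (-(M-1)) (M-1) (-(M-1)) (M-1) → e ∈ Dw f)
    {x vx vy : ℤ} {wV u w : Vtx} (hsD : ((x, -(3*M)) : Vtx) ∈ Vw f)
    (hzD : ∀ y, vy ≤ y → ((vx, y) : Vtx) ∉ Vw f) (hvx : M ≤ vx) (hvx' : vx ≤ 3*M)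
    (hvy : -(3*M) ≤ vy) (hvy' : vy ≤ 4*M) {e0 : Edg} (he0 : e0 ∈ RE M (3*M) (-(3*M)) (4*M))
    (hc0 : (src e0 = wV ∧ tgt e0 = (vx, vy)) ∨ (src e0 = (vx, vy) ∧ tgt e0 = wV))
    (hV2 : Reach (J ∩ ↑(RE M (3*M) (-(3*M)) (4*M))) (x, -(3*M)) wV)
    (hu : u.1 ≤ M - 1)
    (hw3 : Reach (J ∩ ↑(RE (-(4*M)) (3*M) (-(3*M)) (4*M))) u w) (hcase : w.1 = 3*M) :
    Reach J u (x, -(3*M)) := by
  set S : Set Edg := {e | e = e0 ∨ e.1 = vx ∧ e.2.2 = false ∧ vy ≤ e.2.1 ∧ e.2.1 < 4*M} with hS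
  set I : Set Vtx := {z | z.1 = vx ∧ vy ≤ z.2} with hI
  have hIout : ∀ z ∈ I, z ∉ Vw f := by
    rintro ⟨a, b⟩ ⟨h1, h2⟩
    simp only at h1 h2
    subst h1
    exact hzD _ h2
  have hIx : ∀ z ∈ I, M ≤ z.1 := by
    rintro ⟨a, b⟩ ⟨h1, h2⟩
    simp only at h1 ⊢
    omega
  have hseg1 : Reach (S ∩ ↑(RE M (3*M) (-(3*M)) (4*M))) (vx, vy) (vx, 4*M) := by
    have := vseg (S := S ∩ ↑(RE M (3*M) (-(3*M)) (4*M))) (x := vx) (y0 := vy)
      (4*M - vy).toNat (by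
        intro y1 h1 h2
        refine ⟨Or.inr ⟨rfl, rfl, h1, by show y1 < 4*M; omega⟩, ?_⟩
        simp only [mem_coe, mem_RE_false]; omega)
    rwa [show vy + ((4*M - vy).toNat : ℤ) = 4*M by omega] at this
  have hstep : Reach (S ∩ ↑(RE M (3*M) (-(3*M)) (4*M))) wV (vx, vy) :=
    Adj.reach ⟨e0, ⟨Or.inl rfl, mem_coe.2 he0⟩, hc0⟩
  have hV3 : Reach ((J ∪ S) ∩ ↑(RE M (3*M) (-(3*M)) (4*M))) (x, -(3*M)) (vx, 4*M) :=
    (hV2.mono (Set.inter_subset_inter_left _ Set.subset_union_left)).trans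
      ((hstep.trans hseg1).mono (Set.inter_subset_inter_left _ Set.subset_union_right))
  have m := cross_meet (F := J ∪ S) (A := -(4*M)) (B := 3*M) (C := -(3*M)) (D := 4*M)
    (a := M) (b := 3*M) (c := -(3*M)) (d := 4*M) (by omega) (by omega) le_rfl le_rfl (by omega)
    le_rfl (hw3.mono (Set.inter_subset_inter_left _ Set.subset_union_left))
    (by omega) hcase.ge hV3 le_rfl le_rfl
  refine lift (S := S) (I := I) (w0 := wV) ?_ ?_ (m.mono Set.inter_subset_left) ?_ ?_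
  · rintro e he
    constructor
    · intro h
      exact hIout _ h (hJ2 e he (out_of_big (Or.inl (hIx _ h)))).1
    · intro h
      exact hIout _ h (hJ2 e he (out_of_big (Or.inr (Or.inl (hIx _ h))))).2
  · rintro e (rfl | h)
    · rcases hc0 with ⟨h1, h2⟩ | ⟨h1, h2⟩
      · exact ⟨Or.inr h1, Or.inl (by rw [h2]; exact ⟨rfl, le_rfl⟩)⟩
      · exact ⟨Or.inl (by rw [h1]; exact ⟨rfl, le_rfl⟩), Or.inr h2⟩
    · obtain ⟨x0, y0, bo⟩ := e
      obtain ⟨h1, h2, h3, h4⟩ := h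
      simp only at h1 h2 h3 h4
      subst h2
      refine ⟨Or.inl ⟨h1, h3⟩, Or.inl ?_⟩
      rw [tgt_false]
      exact ⟨h1, by show vy ≤ y0 + 1; omega⟩
  · intro h
    have := hIx _ h
    omega
  · intro h
    exact hIout _ h hsD

/-- the horizontal path extended -/
theorem caseW {M : ℤ} {f : ℤ → ℤ} (hM : 0 < M) {J : Set Edg}
    (hJ2 : ∀ e ∈ J, e ∉ RE (-(M-1)) (M-1) (-(M-1)) (M-1) → e ∈ Dw f)
    {q wx wy : ℤ} {wW u w : Vtx} (hsD : ((3*M, q) : Vtx) ∈ Vw f)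
    (hzD : ∀ x, x ≤ wx → ((x, wy) : Vtx) ∉ Vw f) (hwx : -(4*M) ≤ wx) (hwx' : wx ≤ 3*M)
    (hwy : -(3*M) ≤ wy) (hwy' : wy ≤ -M) {e0 : Edg}
    (he0 : e0 ∈ RE (-(4*M)) (3*M) (-(3*M)) (-M))
    (hc0 : (src e0 = wW ∧ tgt e0 = (wx, wy)) ∨ (src e0 = (wx, wy) ∧ tgt e0 = wW))
    (hW2 : Reach (J ∩ ↑(RE (-(4*M)) (3*M) (-(3*M)) (-M))) (3*M, q) wW)
    (hu : -(M - 1) ≤ u.2)
    (hw3 : Reach (J ∩ ↑(RE (-(4*M)) (3*M) (-(3*M)) (4*M))) u w) (hcase : w.2 = -(3*M)) :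
    Reach J u (3*M, q) := by
  set S : Set Edg := {e | e = e0 ∨ e.2.1 = wy ∧ e.2.2 = true ∧ -(4*M) ≤ e.1 ∧ e.1 < wx} with hS
  set I : Set Vtx := {z | z.2 = wy ∧ z.1 ≤ wx} with hI
  have hIout : ∀ z ∈ I, z ∉ Vw f := by
    rintro ⟨a, b⟩ ⟨h1, h2⟩
    simp only at h1 h2
    subst h1
    exact hzD _ h2
  have hIy : ∀ z ∈ I, z.2 ≤ -M := by
    rintro ⟨a, b⟩ ⟨h1, h2⟩
    simp only at h1 ⊢
    omega
  have hseg1 : Reach (S ∩ ↑(RE (-(4*M)) (3*M) (-(3*M)) (-M))) (-(4*M), wy) (wx, wy) := by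
    have := hseg (S := S ∩ ↑(RE (-(4*M)) (3*M) (-(3*M)) (-M))) (x0 := -(4*M)) (y := wy)
      (wx + 4*M).toNat (by
        intro y1 h1 h2
        refine ⟨Or.inr ⟨rfl, rfl, h1, by show y1 < wx; omega⟩, ?_⟩
        simp only [mem_coe, mem_RE_true]; omega)
    rwa [show -(4*M) + ((wx + 4*M).toNat : ℤ) = wx by omega] at this
  have hstep : Reach (S ∩ ↑(RE (-(4*M)) (3*M) (-(3*M)) (-M))) wW (wx, wy) :=
    Adj.reach ⟨e0, ⟨Or.inl rfl, mem_coe.2 he0⟩, hc0⟩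
  have hW3 : Reach ((J ∪ S) ∩ ↑(RE (-(4*M)) (3*M) (-(3*M)) (-M))) (-(4*M), wy) (3*M, q) :=
    ((hseg1.trans hstep.symm).mono
      (Set.inter_subset_inter_left _ Set.subset_union_right)).trans
      (hW2.symm.mono (Set.inter_subset_inter_left _ Set.subset_union_left))
  have m := cross_meet (F := J ∪ S) (A := -(4*M)) (B := 3*M) (C := -(3*M)) (D := 4*M)
    (a := -(4*M)) (b := 3*M) (c := -(3*M)) (d := -M) le_rfl (by omega) le_rfl le_rfl (by omega)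
    (by omega) hW3 le_rfl le_rfl
    (hw3.symm.mono (Set.inter_subset_inter_left _ Set.subset_union_left)) hcase.le
    (by omega)
  have huw : Reach J u w := hw3.mono Set.inter_subset_left
  have m2 : Reach (J ∪ S) u (3*M, q) :=
    ((huw.mono Set.subset_union_left).trans (m.mono Set.inter_subset_left).symm).trans
      (hW3.mono Set.inter_subset_left)
  refine lift (S := S) (I := I) (w0 := wW) ?_ ?_ m2 ?_ ?_
  · rintro e he
    constructor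
    · intro h
      exact hIout _ h (hJ2 e he (out_of_big (Or.inr (Or.inr (Or.inl (hIy _ h)))))).1
    · intro h
      exact hIout _ h (hJ2 e he (out_of_big (Or.inr (Or.inr (Or.inr (Or.inl (hIy _ h))))))).2
  · rintro e (rfl | h)
    · rcases hc0 with ⟨h1, h2⟩ | ⟨h1, h2⟩
      · exact ⟨Or.inr h1, Or.inl (by rw [h2]; exact ⟨rfl, le_rfl⟩)⟩
      · exact ⟨Or.inl (by rw [h1]; exact ⟨rfl, le_rfl⟩), Or.inr h2⟩
    · obtain ⟨x0, y0, bo⟩ := e
      obtain ⟨h1, h2, h3, h4⟩ := h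
      simp only at h1 h2 h3 h4
      subst h2
      refine ⟨Or.inl ⟨h1, h4.le⟩, Or.inl ?_⟩
      rw [tgt_true]
      exact ⟨h1, by show x0 + 1 ≤ wx; omega⟩
  · intro h
    have := hIy _ h
    omega
  · intro h
    exact hIout _ h hsD

/-- the exit point is in the half-plane -/
theorem exit_in {M : ℤ} {f : ℤ → ℤ} (_ : 0 < M) {J : Set Edg}
    (hJ2 : ∀ e ∈ J, e ∉ RE (-(M-1)) (M-1) (-(M-1)) (M-1) → e ∈ Dw f) {u w : Vtx}
    (hu : inR (-(M-1)) (M-1) (-(M-1)) (M-1) u) (huw : Reach J u w)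
    (hw2 : w.1 = -(4*M) ∨ w.1 = 3*M ∨ w.2 = -(3*M) ∨ w.2 = 4*M) : f (ht w) ≤ col w := by
  obtain ⟨e, he, hc⟩ := last_edge huw (by
    rintro rfl
    unfold inR at hu
    omega)
  rcases hc with hc | hc
  · have hout : e ∉ RE (-(M-1)) (M-1) (-(M-1)) (M-1) := out_of_big (by rw [hc]; omega)
    rw [← hc]; exact (hJ2 e he hout).1
  · have hout : e ∉ RE (-(M-1)) (M-1) (-(M-1)) (M-1) := out_of_big (by rw [hc]; omega)
    rw [← hc]; exact (hJ2 e he hout).2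

/-- The integer form. -/
theorem core {M : ℤ} {f : ℤ → ℤ} (hM : 0 < M) (hfb : ∀ h, -M ≤ 4 * f h ∧ 4 * f h ≤ M)
    (hl : ∀ h : ℤ, M ≤ |h| → |f (h+1) - f h| ≤ 1) {F J : Set Edg}
    (hJ2 : ∀ e ∈ J, e ∉ RE (-(M-1)) (M-1) (-(M-1)) (M-1) → e ∈ Dw f)
    (hJ3 : ∀ e ∈ F, e ∈ RE (-(4*M)) (4*M) (-(4*M)) (4*M) →
      e ∉ RE (-(M-1)) (M-1) (-(M-1)) (M-1) → e ∈ Dw f → e ∈ J)
    {x x' y q : ℤ} (hx : M ≤ x ∧ x ≤ 3*M) (hx' : M ≤ x' ∧ x' ≤ 3*M)
    (hV : Reach (F ∩ ↑(TBE M (3*M) (-(3*M)) (4*M))) (x, -(3*M)) (x', 4*M))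
    (hy : -(3*M) ≤ y ∧ y ≤ -M) (hq : -(3*M) ≤ q ∧ q ≤ -M)
    (hW : Reach (F ∩ ↑(LRE (-(4*M)) (3*M) (-(3*M)) (-M))) (-(4*M), y) (3*M, q))
    {u v : Vtx} (hu : inR (-(M-1)) (M-1) (-(M-1)) (M-1) u)
    (hv : v.1 = -(4*M) ∨ v.1 = 4*M ∨ v.2 = -(4*M) ∨ v.2 = 4*M) (huv : Reach J u v) :
    Reach J u (x, -(3*M)) := by
  -- the exit point
  obtain ⟨w, hw1, hw2, hw3⟩ := first_exit (a := -(4*M)) (b := 3*M) (c := -(3*M)) (d := 4*M)
    (by unfold inR at hu ⊢; omega) huv (by omega)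
  have hwD := exit_in hM hJ2 hu (hw3.mono Set.inter_subset_left) hw2
  have hcase : w.1 = 3*M ∨ w.2 = -(3*M) := by
    have hwb := (hfb (ht w)).1
    clear hJ2 hJ3 hV hW huv hw3 hfb hl hx hx' hy hq hv
    unfold col at hwD
    unfold inR at hw1
    rcases hw2 with h | h | h | h
    · exfalso; omega
    · exact Or.inl h
    · exact Or.inr h
    · exfalso; omega
  have hu1 : u.1 ≤ M - 1 := hu.1.2
  have hu2 : -(M - 1) ≤ u.2 := hu.2.1
  clear hw1 hw2 hwD huv hv hu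
  -- the vertical path
  have hsD : ((x, -(3*M)) : Vtx) ∈ Vw f := by
    rw [mem_Vw]
    have := (hfb (x + -(3*M))).2
    omega
  obtain ⟨wV, ⟨vx, vy⟩, hwVD, hzVD, hV1, hadjV⟩ := stop_out (D := Vw f) hV hsD (by
    rw [mem_Vw]
    have := (hfb (x' + 4*M)).1
    omega)
  have hV2 : Reach (J ∩ ↑(RE M (3*M) (-(3*M)) (4*M))) (x, -(3*M)) wV := by
    refine hV1.mono ?_
    rintro e ⟨⟨h1, h2⟩, h3⟩
    obtain ⟨h4, h5⟩ := tbe_sub hM (mem_coe.1 h2)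
    exact ⟨hJ3 _ h1 h4 h5 h3, TBE_subset_RE (mem_coe.mp h2)⟩
  have hwV1 : inR M (3*M) (-(3*M)) (4*M) wV := stay hV2 (by unfold inR; simp only; omega)
  have hzV1 : inR M (3*M) (-(3*M)) (4*M) (vx, vy) := by
    refine stay (G := F) (hadjV.reach.mono ?_) hwV1
    exact Set.inter_subset_inter_right _ (fun e he => TBE_subset_RE (mem_coe.mp he))
  have hnV := (adj_near hadjV).2.2
  have hvy : 3 * M < 4 * vy := by
    by_contra h
    apply hzVD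
    rw [mem_Vw]
    have h1 := (hfb (vx + vy)).2
    have h2 := hzV1.1.1
    simp only at h2
    omega
  have hwV2 : -M ≤ wV.2 := by
    simp only at hnV
    omega
  obtain ⟨⟨a1, a2⟩, a3, a4⟩ := hzV1
  simp only at a1 a2 a3 a4
  have hzD := fun y' (h : vy ≤ y') => up_out' hM hfb hl a1 hzVD h
  obtain ⟨e0, ⟨-, he0T⟩, hc0⟩ := hadjV
  rcases hcase with hcase | hcase
  · exact caseV hM hJ2 hsD hzD a1 a2 a3 a4 (TBE_subset_RE (mem_coe.mp he0T)) hc0 hV2 hu1 hw3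
      hcase
  clear hnV hvy hzD he0T hc0 hwV1 hzVD hwVD a1 a2 a3 a4
  -- the horizontal path
  have hsD' : ((3*M, q) : Vtx) ∈ Vw f := by
    rw [mem_Vw]
    have := (hfb (3*M + q)).2
    omega
  obtain ⟨wW, ⟨wx, wy⟩, hwWD, hzWD, hW1, hadjW⟩ := stop_out (D := Vw f) hW.symm hsD' (by
    rw [mem_Vw]
    have := (hfb (-(4*M) + y)).1
    omega)
  have hW2 : Reach (J ∩ ↑(RE (-(4*M)) (3*M) (-(3*M)) (-M))) (3*M, q) wW := by
    refine hW1.mono ?_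
    rintro e ⟨⟨h1, h2⟩, h3⟩
    obtain ⟨h4, h5⟩ := lre_sub hM (mem_coe.1 h2)
    exact ⟨hJ3 _ h1 h4 h5 h3, LRE_subset_RE (mem_coe.mp h2)⟩
  have hwW1 : inR (-(4*M)) (3*M) (-(3*M)) (-M) wW := stay hW2 (by unfold inR; simp only; omega)
  have hzW1 : inR (-(4*M)) (3*M) (-(3*M)) (-M) (wx, wy) := by
    refine stay (G := F) (hadjW.reach.mono ?_) hwW1
    exact Set.inter_subset_inter_right _ (fun e he => LRE_subset_RE (mem_coe.mp he))
  have hnW := (adj_near hadjW).1.1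
  obtain ⟨⟨a1, a2⟩, a3, a4⟩ := hzW1
  simp only at a1 a2 a3 a4
  have hwx : 4 * wx < -(3 * M) := by
    by_contra h
    apply hzWD
    rw [mem_Vw]
    have h1 := (hfb (wx + wy)).2
    omega
  have hwW2 : wW.1 ≤ M := by
    simp only at hnW
    omega
  -- the two paths meet
  have hmeet : Reach J (3*M, q) (x, -(3*M)) := by
    have m := cross_meet (F := J) (A := -(4*M)) (B := 3*M) (C := -(3*M)) (D := 4*M)
      (a := M) (b := 3*M) (c := -(3*M)) (d := -M) (by omega) (by omega) le_rfl le_rfl (by omega)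
      (by omega) hW2.symm hwW2 le_rfl hV2 le_rfl hwV2
    exact (hW2.mono Set.inter_subset_left).trans (m.mono Set.inter_subset_left)
  have hzD := fun x' (h : x' ≤ wx) => left_out' hM hfb hl a4 hzWD h
  obtain ⟨e0, ⟨-, he0T⟩, hc0⟩ := hadjW
  exact (caseW hM hJ2 hsD' hzD a1 a2 a3 a4 (LRE_subset_RE (mem_coe.mp he0T)) hc0 hW2 hu2 hw3
    hcase).trans hmeet

theorem t_UNIW : UniStmW := by
  intro m f hm hf hl F G hG hBar
  obtain ⟨⟨x, x', hx, hx', hV⟩, ⟨y, q, hy, hq, hW⟩⟩ := hBar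
  have hm' : (0:ℤ) < m := by exact_mod_cast hm
  have hfb : ∀ h, -(m:ℤ) ≤ 4 * f h ∧ 4 * f h ≤ m := by
    intro h
    have h1 := hf h
    have h2 := neg_abs_le (f h)
    have h3 := le_abs_self (f h)
    omega
  have e1 : boxE (4*m) = RE (-(4*(m:ℤ))) (4*m) (-(4*(m:ℤ))) (4*m) := by
    unfold boxE; push_cast; rfl
  have e2 : boxE (m-1) = RE (-((m:ℤ)-1)) (m-1) (-((m:ℤ)-1)) (m-1) := by
    unfold boxE; rw [Nat.cast_sub hm]; push_cast; rfl
  refine ⟨(x, -(3*(m:ℤ))), ?_⟩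
  intro u v hu hv huv
  refine core (M := m) (f := f) (F := ↑F) hm' hfb hl ?_ ?_ hx hx' hV hy hq hW
    (v := v) ?_ ?_ huv
  · rintro e ⟨⟨-, he⟩, he'⟩ hout
    rw [← e2] at hout
    exact (hG e he' hout).mp he
  · intro e he h1 h2 h3
    rw [← e1] at h1
    rw [← e2] at h2
    exact ⟨⟨he, (hG e h1 h2).mpr h3⟩, h1⟩
  · unfold inB at hu
    rw [Nat.cast_sub hm] at hu
    push_cast at hu
    exact hu
  · have := hv.2
    push_cast at this
    exact this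

end Pool.Agent.U919.SA
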